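import Mathlib
import Pool.Agent.Helper53.VCR.Dicho3

/-!
# Vertex Cover: bounded clusters or a short list of candidate covers

`G` is any finite graph, `x` an optimal half-integral solution of its vertex cover linear program,
`m` the number of vertices with `x = 1/2`, and `W` any fractional matching on these vertices of
mass at least `(1 - c^3/32768) m`. Either almost all of these vertices lie in disjoint sets of at
most `s` vertices that contain almost all the mass of `W`, or there is an expanding part `R`; and
every expanding part gives a list of candidate covers, of size exponential in `O(m / s^(3/4))`,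
one of which is within the factor `2 - c^3/8192` of optimal.
-/

open Matrix Module

namespace Pool.Agent.Results.MP_5a5691_lc.ClusterDichotomy

open Pool.Agent.Helper53.VCR

theorem result {V : Type*} [Fintype V] [DecidableEq V] (G : SimpleGraph V) (x : V → ℝ)
    (W : Matrix V V ℝ) (c : ℝ) (s : ℕ) (hx : HalfOpt G x) (hW : FracMatching G x W)
    (hc : 0 < c) (hc1 : c ≤ 1) (hs : 1 ≤ s)
    (hmass : (1 - c ^ 3 / 32768) * halfCount x ≤ ∑ u, ∑ v, W u v) :
    -- clusters or an expanding part
    ((∃ F : Finset (Finset V), Clustered x W c s F) ∨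
      ∃ R : Finset V, ExpandingPart x W c s R) ∧
    -- what every expanding part gives
    ∀ R : Finset V, ExpandingPart x W c s R →
      (finrank ℝ (signless W R (c ^ 2 / 1024)) : ℝ) ^ 4 * (s : ℝ) ^ 3 ≤ (9 * R.card) ^ 4 ∧
      (∃ N : Finset (EuclideanSpace ℝ V),
        IsNet (signless W R (c ^ 2 / 1024)) (√(R.card)) (1 / 4 * √(R.card)) N ∧
        (N.card : ℝ) ≤ 12 ^ finrank ℝ (signless W R (c ^ 2 / 1024))) ∧
      ∀ N : Finset (EuclideanSpace ℝ V),
        IsNet (signless W R (c ^ 2 / 1024)) (√(R.card)) (1 / 4 * √(R.card)) N →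
        Within G (2 - c ^ 3 / 8192) {v | 1 / 2 ≤ x v} ∨
        ∃ z ∈ N, ∃ θ : ℝ, ∀ M : G.Subgraph, IsMaxMatching G {v | v ∈ R ∧ θ < z v} M →
          Within G (2 - c ^ 3 / 8192) (candR x R z θ M) := by
  refine ⟨dichotomy hW c s hc, fun R hR => ⟨rank_final hW c s R hc hc1 hs hR, ?_,
    fun N hN => main_listR G x W c s R hx hW hc hc1 hmass hR N hN⟩⟩
  obtain ⟨N, hN, hcard⟩ := exists_isNet (signless W R (c ^ 2 / 1024)) (√(R.card)) (1 / 4)
    (Real.sqrt_nonneg _) (by norm_num) (by norm_num)
  refine ⟨N, hN, ?_⟩
  have : (3 : ℝ) / (1 / 4) = 12 := by norm_num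
  rwa [this] at hcard

end Pool.Agent.Results.MP_5a5691_lc.ClusterDichotomy
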