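import Mathlib
import Pool.Agent.Helper53.VCR.Main
import Pool.Agent.Helper53.VCR.Girth

/-!
# Vertex Cover: a list of candidate covers indexed by the eigenvectors near `-1` of the linear
programming dual

`G` is any finite graph, `x` an optimal half-integral solution of its vertex cover linear program,
`W` a fractional matching of the graph induced on the `m` vertices with `x = 1/2`, of mass at least
`(1 - δ) m`, and `r` the dimension of the span of the eigenvectors of `W` with eigenvalue at most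
`-(1 - η)`. The candidates come from a net of this `r`-dimensional space.
-/

open Matrix Module

namespace Pool.Agent.Results.MP_5a5691_lc.SpectralList

open Pool.Agent.Helper53.VCR

theorem result {V : Type*} [Fintype V] [DecidableEq V] (G : SimpleGraph V) (x : V → ℝ)
    (W : Matrix V V ℝ) (η δ τ : ℝ) (hx : HalfOpt G x) (hW : FracMatching G x W)
    (hη : 0 < η) (hη1 : η ≤ 1) (hδ : 0 ≤ δ) (hτ : 0 < τ) (hτ1 : τ ≤ 1)
    (hmass : (1 - δ) * halfCount x ≤ ∑ u, ∑ v, W u v) :
    -- small nets exist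
    (∃ N : Finset (EuclideanSpace ℝ V),
      IsNet (lowSpan W (-(1 - η))) (√(halfCount x)) (τ * √(halfCount x)) N ∧
      (N.card : ℝ) ≤ (3 / τ) ^ finrank ℝ (lowSpan W (-(1 - η)))) ∧
    -- every net yields a good cover
    (∀ N : Finset (EuclideanSpace ℝ V),
      IsNet (lowSpan W (-(1 - η))) (√(halfCount x)) (τ * √(halfCount x)) N →
      Within G (2 - η / (1 + η) + 6 * (δ / η) + 3 * τ) {v | 1 / 2 ≤ x v} ∨
      ∃ z ∈ N, ∃ θ : ℝ, ∀ M : G.Subgraph, IsMaxMatching G {v | x v = 1 / 2 ∧ θ < z v} M →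
        Within G (2 - η / (1 + η) + 6 * (δ / η) + 3 * τ) (cand x z θ M)) ∧
    -- the dimension is bounded by traces of even powers
    (∀ t : ℕ, (finrank ℝ (lowSpan W (-(1 - η))) : ℝ) * (1 - η) ^ (2 * t)
      ≤ trace (W ^ (2 * t))) ∧
    -- and exponentially small in the girth
    (∀ (t : ℕ) (μ : ℝ) (H : SimpleGraph V), 1 ≤ t → (∀ u, ∑ v, W u v ^ 2 ≤ μ) →
      (∀ u v, W u v ≠ 0 → H.Adj u v) →
      (∀ (v : V) (c : H.Walk v v), c.IsCycle → 2 * t < c.length) →
      (finrank ℝ (lowSpan W (-(1 - η))) : ℝ) * (1 - η) ^ (2 * t)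
        ≤ (4 * μ) ^ t * halfCount x) := by
  classical
  have hm : halfCount x = (Finset.univ.filter fun v => x v = 1 / 2).card := by
    unfold halfCount
    rw [← Set.ncard_coe_finset]
    congr 1
    ext v; simp
  refine ⟨exists_isNet _ _ τ (Real.sqrt_nonneg _) hτ hτ1, fun N hN =>
    main_list G x W η δ τ hx hW hη hδ hτ hτ1 hmass N hN, fun t => main_trace hW η hη1 t, ?_⟩
  intro t μ H ht hμ hsupp hgirth
  refine (main_trace hW η hη1 t).trans ?_
  rw [hm]
  exact trace_le_of_no_short_cycle hW.symm hsupp μ hμ t ht hgirth _ fun u v hne =>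
    Finset.mem_filter.2 ⟨Finset.mem_univ _, (hW.supp u v hne).2.1⟩

end Pool.Agent.Results.MP_5a5691_lc.SpectralList
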